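import Pool.Agent.Helper83_S1S3.Hom

/-!
# Module H0 (helper53): functoriality, homotopy invariance, degree zero, contractible spaces
-/

set_option autoImplicit false
set_option linter.unusedSectionVars false

open scoped Manifold ContDiff Topology
open CategoryTheory Limits Set

noncomputable section

namespace Pool.Agent.S1S3.H53

open Pool.Agent.S1S3 AlgebraicTopology

theorem Hm_id (i : ℕ) (X : Type) [TopologicalSpace X] :
    Hm i (ContinuousMap.id X) = AddMonoidHom.id _ := by
  unfold Hm
  rw [TopCat.ofHom_id, CategoryTheory.Functor.map_id]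
  rfl

theorem Hm_comp (i : ℕ) (X Y Z : Type) [TopologicalSpace X] [TopologicalSpace Y]
    [TopologicalSpace Z] (f : C(X, Y)) (g : C(Y, Z)) :
    Hm i (g.comp f) = (Hm i g).comp (Hm i f) := by
  unfold Hm
  rw [TopCat.ofHom_comp, CategoryTheory.Functor.map_comp]
  rfl

theorem Hm_homotopy (i : ℕ) (X Y : Type) [TopologicalSpace X] [TopologicalSpace Y]
    (f g : C(X, Y)) (h : f.Homotopic g) : Hm i f = Hm i g := by
  obtain ⟨H⟩ := h
  have := TopCat.Homotopy.congr_homologyMap_singularChainComplexFunctor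
    (C := ModuleCat.{0} ℤ) (f := TopCat.ofHom f) (g := TopCat.ofHom g) H (ModuleCat.of ℤ ℤ) i
  exact congrArg (fun φ => φ.hom.toAddMonoidHom) this

/-- functoriality and homotopy invariance -/
theorem funct : FunctStatement where
  id i X _ := Hm_id i X
  comp i X Y Z _ _ _ f g := Hm_comp i X Y Z f g
  homotopy i X Y _ _ f g h := Hm_homotopy i X Y f g h

section SSet

open Simplicial

variable {C : Type*} [Category C] [HasCoproducts.{0} C] [Preadditive C] [CategoryWithHomology C]

/-- the class of a vertex -/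
def vtx (X : SSet.{0}) (R : C) (x : X _⦋0⦌) : R ⟶ X.homology R 0 :=
  (X.chainComplex R).liftCycles (X.ιChainComplex x) 0 (by simp) (by simp) ≫
      (X.chainComplex R).homologyπ 0

theorem vtx_ε (X : SSet.{0}) (R : C) (x : X _⦋0⦌) : vtx X R x ≫ X.homology₀ε R = 𝟙 R := by
  unfold vtx
  rw [Category.assoc]
  exact SSet.liftCycles_ιChainComplex_homologyπ_homology₀ε X R x

theorem vtx_map {X Y : SSet.{0}} (f : X ⟶ Y) (R : C) (x : X _⦋0⦌) :
    vtx X R x ≫ SSet.homologyMap f R 0 = vtx Y R (f.app _ x) := by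
  unfold vtx SSet.homologyMap
  rw [Category.assoc, HomologicalComplex.homologyπ_naturality,
    ← Category.assoc, HomologicalComplex.liftCycles_comp_cyclesMap]
  simp only [SSet.ι_chainComplexMap_f]

theorem isIso_homologyMap_zero {X Y : SSet.{0}} [X.IsConnected] [Y.IsConnected] (f : X ⟶ Y)
    (R : C) (x : X _⦋0⦌) : IsIso (SSet.homologyMap f R 0) := by
  have h1 : vtx X R x = inv (X.homology₀ε R) := by
    rw [← cancel_mono (X.homology₀ε R), vtx_ε, IsIso.inv_hom_id]
  have h2 : vtx Y R (f.app _ x) = inv (Y.homology₀ε R) := by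
    rw [← cancel_mono (Y.homology₀ε R), vtx_ε, IsIso.inv_hom_id]
  have h3 := vtx_map f R x
  rw [h1, h2] at h3
  have h4 : SSet.homologyMap f R 0 = X.homology₀ε R ≫ inv (Y.homology₀ε R) := by
    rw [← h3, IsIso.hom_inv_id_assoc]
  rw [h4]
  infer_instance

end SSet

/-- `Hm 0` is bijective for path connected spaces. -/
theorem Hm_zero_bijective (X Y : Type) [TopologicalSpace X] [TopologicalSpace Y]
    [PathConnectedSpace X] [PathConnectedSpace Y] (f : C(X, Y)) : Function.Bijective (Hm 0 f) := by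
  obtain ⟨x⟩ : Nonempty X := inferInstance
  have := isIso_homologyMap_zero (C := ModuleCat.{0} ℤ) (TopCat.toSSet.map (TopCat.ofHom f))
    (ModuleCat.of ℤ ℤ) (TopCat.toSSetObj₀Equiv.symm x)
  have h : IsIso (((singularHomologyFunctor (ModuleCat.{0} ℤ) 0).obj
    (ModuleCat.of ℤ ℤ)).map (TopCat.ofHom f)) := this
  have h2 := (ConcreteCategory.isIso_iff_bijective (((singularHomologyFunctor (ModuleCat.{0} ℤ) 0).obj
    (ModuleCat.of ℤ ℤ)).map (TopCat.ofHom f))).1 h
  exact h2

theorem HH_zero_int (X : Type) [TopologicalSpace X] [PathConnectedSpace X] :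
    Nonempty (HH 0 X ≃+ ℤ) := by
  have e := asIso (TopCat.singularHomology₀ε (TopCat.of X) (ModuleCat.of ℤ ℤ))
  exact ⟨e.toLinearEquiv.toAddEquiv⟩

theorem subsingleton_of_isZero {M : ModuleCat.{0} ℤ} (h : IsZero M) : Subsingleton M :=
  ModuleCat.subsingleton_of_isZero h

theorem HH_contr (X : Type) [TopologicalSpace X] [ContractibleSpace X] (i : ℕ) (hi : i ≠ 0) :
    Subsingleton (HH i X) := by
  have h1 : Subsingleton (HH i Unit) := subsingleton_of_isZero
    (isZero_singularHomologyFunctor_of_totallyDisconnectedSpace (ModuleCat.{0} ℤ) i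
      (ModuleCat.of ℤ ℤ) (TopCat.of Unit) hi)
  obtain ⟨e⟩ := ContractibleSpace.hequiv_unit X
  constructor
  intro a b
  have hcomp := Hm_comp i X Unit X e.toFun e.invFun
  rw [Hm_homotopy i X X _ _ e.left_inv, Hm_id] at hcomp
  have ha := DFunLike.congr_fun hcomp a
  have hb := DFunLike.congr_fun hcomp b
  simp only [AddMonoidHom.id_apply, AddMonoidHom.comp_apply] at ha hb
  rw [ha, hb, Subsingleton.elim (Hm i e.toFun a) (Hm i e.toFun b)]

theorem HH_empty (X : Type) [TopologicalSpace X] [IsEmpty X] (i : ℕ) : Subsingleton (HH i X) := by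
  have : TotallyDisconnectedSpace X := ⟨fun _ _ _ x => isEmptyElim x⟩
  by_cases hi : i = 0
  · subst hi
    refine subsingleton_of_isZero (IsZero.of_iso ?_
      (singularHomologyFunctorZeroOfTotallyDisconnectedSpace (ModuleCat.{0} ℤ)
      (ModuleCat.of ℤ ℤ) (TopCat.of X)))
    rw [IsZero.iff_id_eq_zero]
    exact Sigma.hom_ext _ _ fun x => isEmptyElim x
  · exact subsingleton_of_isZero
      (isZero_singularHomologyFunctor_of_totallyDisconnectedSpace (ModuleCat.{0} ℤ) i
        (ModuleCat.of ℤ ℤ) (TopCat.of X) hi)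

/-- module H0 -/
theorem h0 : H0Statement where
  bij X Y _ _ _ _ f := Hm_zero_bijective X Y f
  int X _ _ := HH_zero_int X
  contr X _ _ i hi := HH_contr X i hi
  empty X _ _ i := HH_empty X i

end Pool.Agent.S1S3.H53
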