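import Pool.Agent.Helper53_S1S3.H0

/-!
# Module SPH (helper53): the homology of spheres
-/

set_option autoImplicit false
set_option linter.unusedSectionVars false

open scoped Manifold ContDiff Topology
open CategoryTheory Set

noncomputable section

namespace Pool.Agent.S1S3.H53

open Pool.Agent.S1S3

/-- homotopy equivalent spaces have isomorphic homology -/
def HHequiv (i : ℕ) {X Y : Type} [TopologicalSpace X] [TopologicalSpace Y]
    (e : ContinuousMap.HomotopyEquiv X Y) : HH i X ≃+ HH i Y where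
  toFun := Hm i e.toFun
  invFun := Hm i e.invFun
  left_inv a := by
    have hcomp := Hm_comp i X Y X e.toFun e.invFun
    rw [Hm_homotopy i X X _ _ e.left_inv, Hm_id] at hcomp
    exact (DFunLike.congr_fun hcomp a).symm
  right_inv a := by
    have hcomp := Hm_comp i Y X Y e.invFun e.toFun
    rw [Hm_homotopy i Y Y _ _ e.right_inv, Hm_id] at hcomp
    exact (DFunLike.congr_fun hcomp a).symm
  map_add' a b := map_add _ a b

theorem HHequiv_apply (i : ℕ) {X Y : Type} [TopologicalSpace X] [TopologicalSpace Y]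
    (e : ContinuousMap.HomotopyEquiv X Y) (a : HH i X) : HHequiv i e a = Hm i e.toFun a := rfl

/-- punctured Euclidean space -/
abbrev PP (n : ℕ) : Type := {x : Eu n // x ≠ 0}

/-- The complement of a closed half line. -/
def capA (n : ℕ) (s : ℝ) : Set (PP (n + 1)) :=
  {x | (∃ i : Fin n, x.1 i.castSucc ≠ 0) ∨ 0 < s * x.1 (Fin.last n)}

theorem isOpen_capA (n : ℕ) (s : ℝ) : IsOpen (capA n s) := by
  have : capA n s = (⋃ i : Fin n, {x : PP (n + 1) | x.1 i.castSucc ≠ 0}) ∪
      {x | 0 < s * x.1 (Fin.last n)} := by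
    ext x; simp [capA]
  rw [this]
  refine IsOpen.union (isOpen_iUnion fun i => ?_) ?_
  · exact isOpen_ne_fun (by fun_prop) continuous_const
  · exact isOpen_lt continuous_const (by fun_prop)

theorem capA_union (n : ℕ) : capA n 1 ∪ capA n (-1) = univ := by
  rw [eq_univ_iff_forall]
  intro x
  by_contra h
  simp only [capA, mem_union, mem_ofPred_eq, not_or, not_exists, not_not, not_lt] at h
  obtain ⟨⟨h1, h2⟩, -, h3⟩ := h
  refine x.2 ?_
  ext i
  refine Fin.lastCases ?_ (fun i => ?_) i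
  · rw [PiLp.zero_apply]; linarith
  · rw [PiLp.zero_apply]; exact h1 i

theorem capA_inter (n : ℕ) :
    capA n 1 ∩ capA n (-1) = {x : PP (n + 1) | ∃ i : Fin n, x.1 i.castSucc ≠ 0} := by
  ext x
  simp only [capA, mem_inter_iff, mem_ofPred_eq]
  constructor
  · rintro ⟨h1 | h1, h2 | h2⟩
    · exact h1
    · exact h1
    · exact h2
    · linarith
  · intro h
    exact ⟨Or.inl h, Or.inl h⟩

/-- the last basis vector -/
def eL (n : ℕ) : Eu (n + 1) := EuclideanSpace.single (Fin.last n) 1

theorem eL_castSucc (n : ℕ) (i : Fin n) : eL n i.castSucc = 0 := by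
  simp [eL, Fin.castSucc_ne_last]

theorem eL_last (n : ℕ) : eL n (Fin.last n) = 1 := by simp [eL]

/-- The slit spaces are contractible. -/
theorem capA_contractible (n : ℕ) (s : ℝ) (hs : s = 1 ∨ s = -1) : ContractibleSpace (capA n s) := by
  have hss : s * s = 1 := by rcases hs with rfl | rfl <;> norm_num
  have key : ∀ (t : unitInterval) (x : capA n s),
      (∃ i : Fin n, ((1 - (t : ℝ)) • x.1.1 + ((t : ℝ) * s) • eL n) i.castSucc ≠ 0) ∨
        0 < s * ((1 - (t : ℝ)) • x.1.1 + ((t : ℝ) * s) • eL n) (Fin.last n) := by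
    intro t x
    have ht0 : 0 ≤ (t : ℝ) := t.2.1
    have ht1 : (t : ℝ) ≤ 1 := t.2.2
    rcases eq_or_lt_of_le ht1 with h1 | h1
    · right
      simp only [PiLp.add_apply, PiLp.smul_apply, smul_eq_mul, eL_last, mul_one]
      rw [h1]; nlinarith
    · rcases x.2 with ⟨i, hi⟩ | hi
      · left
        refine ⟨i, ?_⟩
        simp only [PiLp.add_apply, PiLp.smul_apply, smul_eq_mul, eL_castSucc, mul_zero, add_zero]
        exact mul_ne_zero (by linarith) hi
      · right
        simp only [PiLp.add_apply, PiLp.smul_apply, smul_eq_mul, eL_last, mul_one]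
        have : s * ((1 - (t : ℝ)) * x.1.1 (Fin.last n) + (t : ℝ) * s) =
          (1 - (t : ℝ)) * (s * x.1.1 (Fin.last n)) + (t : ℝ) * (s * s) := by ring
        rw [this, hss, mul_one]
        have : 0 < (1 - (t : ℝ)) * (s * x.1.1 (Fin.last n)) := mul_pos (by linarith) hi
        linarith
  have hne : ∀ (t : unitInterval) (x : capA n s),
      (1 - (t : ℝ)) • x.1.1 + ((t : ℝ) * s) • eL n ≠ 0 := by
    intro t x h
    rcases key t x with ⟨i, hi⟩ | hi
    · rw [h] at hi; exact hi rfl
    · rw [h, PiLp.zero_apply, mul_zero] at hi; exact lt_irrefl _ hi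
  rw [contractible_iff_id_nullhomotopic]
  have hs0 : s ≠ 0 := by rintro rfl; norm_num at hss
  have hpt : s • eL n ≠ 0 := by
    intro h
    have := congrArg (fun v : Eu (n + 1) => v (Fin.last n)) h
    simp only [PiLp.smul_apply, eL_last, smul_eq_mul, mul_one, PiLp.zero_apply] at this
    exact hs0 this
  have hpt' : (⟨s • eL n, hpt⟩ : PP (n + 1)) ∈ capA n s := by
    right
    simp only [PiLp.smul_apply, eL_last, smul_eq_mul, mul_one]
    rw [hss]; norm_num
  refine ⟨⟨⟨s • eL n, hpt⟩, hpt'⟩, ⟨{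
    toFun := fun p => ⟨⟨(1 - (p.1 : ℝ)) • p.2.1.1 + ((p.1 : ℝ) * s) • eL n, hne p.1 p.2⟩,
      key p.1 p.2⟩
    continuous_toFun := by
      refine Continuous.subtype_mk (Continuous.subtype_mk ?_ _) _
      fun_prop
    map_zero_left := ?_
    map_one_left := ?_ }⟩⟩
  · intro x
    apply Subtype.ext
    apply Subtype.ext
    simp
  · intro x
    apply Subtype.ext
    apply Subtype.ext
    simp

/-- forget the last coordinate -/
def dropL (n : ℕ) (x : Eu (n + 1)) : Eu n := WithLp.toLp 2 fun i => x i.castSucc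

/-- add a last coordinate zero -/
def addL (n : ℕ) (x : Eu n) : Eu (n + 1) :=
  WithLp.toLp 2 fun i => Fin.lastCases (motive := fun _ => ℝ) 0 (fun j => x j) i

theorem continuous_dropL (n : ℕ) : Continuous (dropL n) := by
  unfold dropL; fun_prop

theorem addL_castSucc (n : ℕ) (x : Eu n) (i : Fin n) : addL n x i.castSucc = x i := by
  simp [addL]

theorem addL_last (n : ℕ) (x : Eu n) : addL n x (Fin.last n) = 0 := by
  simp [addL]

theorem continuous_addL (n : ℕ) : Continuous (addL n) := by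
  unfold addL
  refine (PiLp.continuous_toLp 2 _).comp (continuous_pi fun i => ?_)
  refine Fin.lastCases ?_ (fun j => ?_) i
  · simp only [Fin.lastCases_last]; exact continuous_const
  · simp only [Fin.lastCases_castSucc]; fun_prop

theorem dropL_addL (n : ℕ) (x : Eu n) : dropL n (addL n x) = x := by
  ext i
  simp [dropL, addL_castSucc]

theorem addL_dropL (n : ℕ) (x : Eu (n + 1)) : addL n (dropL n x) = x - x (Fin.last n) • eL n := by
  ext i
  refine Fin.lastCases ?_ (fun j => ?_) i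
  · rw [addL_last, PiLp.sub_apply, PiLp.smul_apply, eL_last]; simp
  · rw [addL_castSucc, PiLp.sub_apply, PiLp.smul_apply, eL_castSucc]; simp [dropL]

theorem dropL_ne_zero {n : ℕ} {x : Eu (n + 1)} (h : ∃ i : Fin n, x i.castSucc ≠ 0) :
    dropL n x ≠ 0 := by
  obtain ⟨i, hi⟩ := h
  intro h0
  exact hi (congrArg (fun v : Eu n => v i) h0)

theorem exists_ne_zero {n : ℕ} {x : Eu n} (h : x ≠ 0) : ∃ i, x i ≠ 0 := by
  by_contra hcon
  push Not at hcon
  exact h (by ext i; exact hcon i)

/-- the set where the first coordinates are not all zero -/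
def midS (n : ℕ) : Set (PP (n + 1)) := {x | ∃ i : Fin n, x.1 i.castSucc ≠ 0}

theorem addL_mid {n : ℕ} {x : Eu n} (h : x ≠ 0) : ∃ i : Fin n, addL n x i.castSucc ≠ 0 := by
  obtain ⟨i, hi⟩ := exists_ne_zero h
  exact ⟨i, by rw [addL_castSucc]; exact hi⟩

theorem ne_zero_of_mid {n : ℕ} {x : Eu (n + 1)} (h : ∃ i : Fin n, x i.castSucc ≠ 0) : x ≠ 0 := by
  obtain ⟨i, hi⟩ := h
  intro h0
  exact hi (by rw [h0]; rfl)

/-- the intersection of the slit spaces is homotopy equivalent to the punctured space of one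
dimension less -/
def midEquiv (n : ℕ) : ContinuousMap.HomotopyEquiv (midS n) (PP n) where
  toFun := ⟨fun x => ⟨dropL n x.1.1, dropL_ne_zero x.2⟩,
    Continuous.subtype_mk ((continuous_dropL n).comp (by fun_prop)) _⟩
  invFun := ⟨fun y => ⟨⟨addL n y.1, ne_zero_of_mid (addL_mid y.2)⟩, addL_mid y.2⟩,
    Continuous.subtype_mk (Continuous.subtype_mk ((continuous_addL n).comp (by fun_prop)) _) _⟩
  left_inv := by
    have hmid : ∀ (t : unitInterval) (x : midS n), ∃ i : Fin n,
        (x.1.1 - ((1 - (t : ℝ)) * x.1.1 (Fin.last n)) • eL n) i.castSucc ≠ 0 := by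
      intro t x
      obtain ⟨i, hi⟩ := x.2
      refine ⟨i, ?_⟩
      rw [PiLp.sub_apply, PiLp.smul_apply, eL_castSucc, smul_zero, sub_zero]
      exact hi
    refine ⟨{
      toFun := fun p => ⟨⟨p.2.1.1 - ((1 - (p.1 : ℝ)) * p.2.1.1 (Fin.last n)) • eL n,
        ne_zero_of_mid (hmid p.1 p.2)⟩, hmid p.1 p.2⟩
      continuous_toFun := by
        refine Continuous.subtype_mk (Continuous.subtype_mk ?_ _) _
        fun_prop
      map_zero_left := ?_
      map_one_left := ?_ }⟩
    · intro x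
      apply Subtype.ext
      apply Subtype.ext
      simp [addL_dropL]
    · intro x
      apply Subtype.ext
      apply Subtype.ext
      simp
  right_inv := by
    have : ((⟨fun x => ⟨dropL n x.1.1, dropL_ne_zero x.2⟩,
      Continuous.subtype_mk ((continuous_dropL n).comp (by fun_prop)) _⟩ : C(midS n, PP n)).comp
      ⟨fun y => ⟨⟨addL n y.1, ne_zero_of_mid (addL_mid y.2)⟩, addL_mid y.2⟩,
      Continuous.subtype_mk (Continuous.subtype_mk ((continuous_addL n).comp (by fun_prop)) _) _⟩)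
      = ContinuousMap.id (PP n) := by
      ext1 y
      apply Subtype.ext
      exact dropL_addL n y.1
    rw [this]

/-- the unit sphere is homotopy equivalent to the punctured space -/
def sphEquiv (n : ℕ) : ContinuousMap.HomotopyEquiv (Sn n) (PP (n + 1)) where
  toFun := ⟨fun x => ⟨x.1, by
      intro h
      have := x.2
      rw [h] at this
      simp at this⟩, by fun_prop⟩
  invFun := ⟨fun y => ⟨‖y.1‖⁻¹ • y.1, by
      have : ‖y.1‖ ≠ 0 := norm_ne_zero_iff.2 y.2
      rw [mem_sphere_zero_iff_norm, norm_smul, norm_inv, norm_norm, inv_mul_cancel₀ this]⟩, by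
      refine Continuous.subtype_mk ?_ _
      refine Continuous.smul (Continuous.inv₀ (by fun_prop) fun y => norm_ne_zero_iff.2 y.2) ?_
      fun_prop⟩
  left_inv := by
    have : ContinuousMap.comp (⟨fun y => ⟨‖y.1‖⁻¹ • y.1, by
      have : ‖y.1‖ ≠ 0 := norm_ne_zero_iff.2 y.2
      rw [mem_sphere_zero_iff_norm, norm_smul, norm_inv, norm_norm, inv_mul_cancel₀ this]⟩, by
      refine Continuous.subtype_mk ?_ _
      refine Continuous.smul (Continuous.inv₀ (by fun_prop) fun y => norm_ne_zero_iff.2 y.2) ?_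
      fun_prop⟩ : C(PP (n + 1), Sn n)) (⟨fun x => ⟨x.1, by
      intro h
      have := x.2
      rw [h] at this
      simp at this⟩, by fun_prop⟩ : C(Sn n, PP (n + 1))) = ContinuousMap.id (Sn n) := by
      ext1 x
      apply Subtype.ext
      have : ‖x.1‖ = 1 := mem_sphere_zero_iff_norm.1 x.2
      simp [this]
    rw [this]
  right_inv := by
    have hne : ∀ (t : unitInterval) (y : PP (n + 1)),
        ((1 - (t : ℝ)) * ‖y.1‖⁻¹ + t) • y.1 ≠ 0 := by
      intro t y
      have h0 : 0 < ‖y.1‖⁻¹ := inv_pos.2 (norm_pos_iff.2 y.2)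
      have ht0 : 0 ≤ (t : ℝ) := t.2.1
      have ht1 : (t : ℝ) ≤ 1 := t.2.2
      refine smul_ne_zero (ne_of_gt ?_) y.2
      rcases eq_or_lt_of_le ht0 with h | h
      · rw [← h]; simpa using h0
      · have : 0 ≤ (1 - (t : ℝ)) * ‖y.1‖⁻¹ := mul_nonneg (by linarith) h0.le
        linarith
    refine ⟨{
      toFun := fun p => ⟨((1 - (p.1 : ℝ)) * ‖p.2.1‖⁻¹ + p.1) • p.2.1, hne p.1 p.2⟩
      continuous_toFun := by
        refine Continuous.subtype_mk ?_ _
        refine Continuous.smul (Continuous.add (Continuous.mul (by fun_prop)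
          (Continuous.inv₀ (by fun_prop) fun y => norm_ne_zero_iff.2 y.2.2)) (by fun_prop)) ?_
        fun_prop
      map_zero_left := ?_
      map_one_left := ?_ }⟩
    · intro x
      apply Subtype.ext
      simp
    · intro x
      apply Subtype.ext
      simp

theorem ker_equiv {G G' H : Type} [AddCommGroup G] [AddCommGroup G'] [AddCommGroup H]
    (e : G ≃+ G') (f : G →+ H) (f' : G' →+ H) (h : ∀ x, f' (e x) = f x) :
    Nonempty (f.ker ≃+ f'.ker) := by
  refine ⟨⟨⟨fun x => ⟨e x, ?_⟩, fun y => ⟨e.symm y, ?_⟩, fun x => ?_, fun y => ?_⟩, fun x y => ?_⟩⟩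
  · rw [AddMonoidHom.mem_ker, h]; exact x.2
  · rw [AddMonoidHom.mem_ker, ← h, e.apply_symm_apply]; exact y.2
  · apply Subtype.ext; simp
  · apply Subtype.ext; simp
  · apply Subtype.ext; simp

theorem mv_contr (hMV : MVStatement) {X : Type} [TopologicalSpace X] (A B : Set X)
    (hA : IsOpen A) (hB : IsOpen B) (hAB : A ∪ B = univ) [ContractibleSpace A]
    [ContractibleSpace B] :
    (∀ i, i ≠ 0 → Nonempty (HH (i + 1) X ≃+ HH i ↥(A ∩ B))) ∧
      Nonempty (HH 1 X ≃+ (mvPair A B 0).ker) := by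
  obtain ⟨δ, hδ, -⟩ := hMV
  obtain ⟨-, h2, h3, -⟩ := hδ X A B hA hB hAB
  have hinj : ∀ i, Function.Injective (δ X A B i) := by
    intro i
    rw [injective_iff_map_eq_zero]
    intro x hx
    obtain ⟨⟨a, b⟩, rfl⟩ := (h2 i x).1 hx
    have := HH_contr A (i + 1) (Nat.succ_ne_zero i)
    have := HH_contr B (i + 1) (Nat.succ_ne_zero i)
    rw [Subsingleton.elim a 0, Subsingleton.elim b 0]
    exact map_zero _
  constructor
  · intro i hi
    refine ⟨AddEquiv.ofBijective (δ X A B i) ⟨hinj i, fun y => ?_⟩⟩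
    have := HH_contr A i hi
    have := HH_contr B i hi
    exact (h3 i y).1 (Subsingleton.elim _ _)
  · refine ⟨AddEquiv.ofBijective ((δ X A B 0).codRestrict _ fun x => (h3 0 _).2 ⟨x, rfl⟩)
      ⟨?_, ?_⟩⟩
    · intro x y hxy
      exact hinj 0 (congrArg Subtype.val hxy)
    · intro y
      obtain ⟨x, hx⟩ := (h3 0 y.1).1 y.2
      exact ⟨x, Subtype.ext hx⟩

/-- the constant map to a point -/
def cst (X : Type) [TopologicalSpace X] : C(X, Unit) := ContinuousMap.const X ()

theorem Hm_cst {X Y : Type} [TopologicalSpace X] [TopologicalSpace Y] (i : ℕ) (f : C(X, Y))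
    (x : HH i X) : Hm i (cst Y) (Hm i f x) = Hm i (cst X) x := by
  have := Hm_comp i X Y Unit f (cst Y)
  have h2 : (cst Y).comp f = cst X := rfl
  rw [h2] at this
  exact (DFunLike.congr_fun this x).symm

/-- The kernel of the augmentation of a space with two path components. -/
theorem ker_cst (hMV : MVStatement) {X : Type} [TopologicalSpace X] (U V : Set X)
    (hU : IsOpen U) (hV : IsOpen V) (hUV : U ∪ V = univ) (hdis : U ∩ V = ∅)
    [PathConnectedSpace U] [PathConnectedSpace V] : Nonempty ((Hm 0 (cst X)).ker ≃+ ℤ) := by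
  obtain ⟨δ, hδ, -⟩ := hMV
  obtain ⟨h1, -, -, hsurj⟩ := hδ X U V hU hV hUV
  have hemp : IsEmpty ↥(U ∩ V) := by rw [hdis]; infer_instance
  have hsub := HH_empty ↥(U ∩ V) 0
  have hinj : Function.Injective (mvDiff U V 0) := by
    rw [injective_iff_map_eq_zero]
    intro x hx
    obtain ⟨y, rfl⟩ := (h1 0 x).1 hx
    rw [Subsingleton.elim y 0, map_zero]
  have eU : HH 0 U ≃+ HH 0 Unit := AddEquiv.ofBijective _ (Hm_zero_bijective U Unit (cst U))
  obtain ⟨eV, heV⟩ : ∃ e : HH 0 V ≃+ HH 0 Unit, ∀ v, e v = Hm 0 (cst V) v :=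
    ⟨AddEquiv.ofBijective _ (Hm_zero_bijective V Unit (cst V)), fun v => rfl⟩
  have hval : ∀ (u : HH 0 U) (v : HH 0 V), Hm 0 (cst X) (mvDiff U V 0 (u, v)) =
      Hm 0 (cst U) u - Hm 0 (cst V) v := by
    intro u v
    have : mvDiff U V 0 (u, v) = Hm 0 (valC U) u - Hm 0 (valC V) v := by
      simp [mvDiff, sub_eq_add_neg]
    rw [this, map_sub, Hm_cst, Hm_cst]
  let g : HH 0 U →+ HH 0 X := (mvDiff U V 0).comp ((AddMonoidHom.id (HH 0 U)).prod
    (eV.symm.toAddMonoidHom.comp (Hm 0 (cst U))))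
  have hg : ∀ u, g u = mvDiff U V 0 (u, eV.symm (Hm 0 (cst U) u)) := fun u => rfl
  have hker : ∀ u, g u ∈ (Hm 0 (cst X)).ker := by
    intro u
    rw [AddMonoidHom.mem_ker, hg, hval, ← heV, eV.apply_symm_apply, sub_self]
  obtain ⟨eZ⟩ := HH_zero_int U
  have e1 : HH 0 U ≃+ (Hm 0 (cst X)).ker := AddEquiv.ofBijective (g.codRestrict _ hker) (by
    constructor
    · intro u u' h
      have h' : g u = g u' := congrArg Subtype.val h
      rw [hg, hg] at h'
      exact congrArg Prod.fst (hinj h')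
    · rintro ⟨x, hx⟩
      obtain ⟨⟨u, v⟩, rfl⟩ := hsurj x
      rw [AddMonoidHom.mem_ker, hval, sub_eq_zero] at hx
      refine ⟨u, Subtype.ext ?_⟩
      change g u = _
      rw [hg, hx, ← heV, eV.symm_apply_apply])
  exact ⟨e1.symm.trans eZ⟩

/-- The kernel of `H_0(A ∩ B) → H_0(A) × H_0(B)` is the kernel of the augmentation. -/
theorem ker_mvPair {X : Type} [TopologicalSpace X] (A B : Set X) [PathConnectedSpace A]
    [PathConnectedSpace B] : (mvPair A B 0).ker = (Hm 0 (cst ↥(A ∩ B))).ker := by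
  ext x
  rw [AddMonoidHom.mem_ker, AddMonoidHom.mem_ker]
  have h1 := Hm_cst 0 (inclC (inter_subset_left : A ∩ B ⊆ A)) x
  have h2 := Hm_cst 0 (inclC (inter_subset_right : A ∩ B ⊆ B)) x
  have hA := (Hm_zero_bijective A Unit (cst A)).1
  have hB := (Hm_zero_bijective B Unit (cst B)).1
  constructor
  · intro h
    have : Hm 0 (inclC (inter_subset_left : A ∩ B ⊆ A)) x = 0 := congrArg Prod.fst h
    rw [← h1, this, map_zero]
  · intro h
    refine Prod.ext ?_ ?_
    · refine hA ?_
      change Hm 0 (cst A) (Hm 0 (inclC (inter_subset_left : A ∩ B ⊆ A)) x) = Hm 0 (cst A) 0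
      rw [h1, h, map_zero]
    · refine hB ?_
      change Hm 0 (cst B) (Hm 0 (inclC (inter_subset_right : A ∩ B ⊆ B)) x) = Hm 0 (cst B) 0
      rw [h2, h, map_zero]

/-- the intersection of the two slit spaces -/
def interEquiv (n : ℕ) :
    ContinuousMap.HomotopyEquiv ↥(capA n 1 ∩ capA n (-1)) (PP n) :=
  (Homeomorph.setCongr (capA_inter n)).toHomotopyEquiv.trans (midEquiv n)

theorem PP_mv (hMV : MVStatement) (n : ℕ) :
    (∀ i, i ≠ 0 → Nonempty (HH (i + 1) (PP (n + 1)) ≃+ HH i (PP n))) ∧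
      Nonempty (HH 1 (PP (n + 1)) ≃+ (Hm 0 (cst (PP n))).ker) := by
  have := capA_contractible n 1 (Or.inl rfl)
  have := capA_contractible n (-1) (Or.inr rfl)
  obtain ⟨h1, ⟨e2⟩⟩ := mv_contr hMV (capA n 1) (capA n (-1)) (isOpen_capA n 1)
    (isOpen_capA n (-1)) (capA_union n)
  constructor
  · intro i hi
    obtain ⟨e⟩ := h1 i hi
    exact ⟨e.trans (HHequiv i (interEquiv n))⟩
  · obtain ⟨e3⟩ := ker_equiv (HHequiv 0 (interEquiv n)) (Hm 0 (cst ↥(capA n 1 ∩ capA n (-1))))
      (Hm 0 (cst (PP n))) (fun x => by rw [HHequiv_apply, Hm_cst])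
    have e4 := AddEquiv.addSubgroupCongr (ker_mvPair (capA n 1) (capA n (-1)))
    exact ⟨(e2.trans e4).trans e3⟩

theorem PP_pathConnected (n : ℕ) : PathConnectedSpace (PP (n + 2)) := by
  have h : IsPathConnected ({0}ᶜ : Set (Eu (n + 2))) := by
    apply isPathConnected_compl_singleton_of_one_lt_rank
    rw [← Module.finrank_eq_rank, finrank_euclideanSpace_fin]
    exact_mod_cast (by omega : 1 < n + 2)
  exact isPathConnected_iff_pathConnectedSpace.1 h

theorem PP_zero_empty : IsEmpty (PP 0) := ⟨fun x => x.2 (Subsingleton.elim _ _)⟩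

theorem PP_one (hMV : MVStatement) (i : ℕ) (hi : i ≠ 0) : Subsingleton (HH i (PP 1)) := by
  have := PP_zero_empty
  obtain ⟨h1, ⟨e⟩⟩ := PP_mv hMV 0
  have hs := fun i => HH_empty (PP 0) i
  obtain ⟨j, rfl⟩ := Nat.exists_eq_succ_of_ne_zero hi
  by_cases hj : j = 0
  · subst hj
    have := hs 0
    exact e.toEquiv.subsingleton
  · obtain ⟨e'⟩ := h1 j hj
    have := hs j
    exact e'.toEquiv.subsingleton

theorem PP_two_top (hMV : MVStatement) : Nonempty (HH 1 (PP 2) ≃+ ℤ) := by
  obtain ⟨-, ⟨e⟩⟩ := PP_mv hMV 1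
  have := capA_contractible 0 1 (Or.inl rfl)
  have := capA_contractible 0 (-1) (Or.inr rfl)
  obtain ⟨e'⟩ := ker_cst hMV (capA 0 1) (capA 0 (-1)) (isOpen_capA 0 1) (isOpen_capA 0 (-1))
    (capA_union 0) (by
      rw [capA_inter, eq_empty_iff_forall_notMem]
      rintro x ⟨i, -⟩
      exact i.elim0)
  exact ⟨e.trans e'⟩

theorem PP_homology (hMV : MVStatement) (m : ℕ) :
    Nonempty (HH (m + 1) (PP (m + 2)) ≃+ ℤ) ∧
      ∀ i, i ≠ 0 → i ≠ m + 1 → Subsingleton (HH i (PP (m + 2))) := by
  induction m with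
  | zero =>
    refine ⟨PP_two_top hMV, fun i hi hi1 => ?_⟩
    obtain ⟨j, rfl⟩ := Nat.exists_eq_succ_of_ne_zero hi
    have hj : j ≠ 0 := by rintro rfl; exact hi1 rfl
    obtain ⟨e⟩ := (PP_mv hMV 1).1 j hj
    have := PP_one hMV j hj
    exact e.toEquiv.subsingleton
  | succ m ih =>
    obtain ⟨⟨e⟩, h0⟩ := ih
    obtain ⟨h1, ⟨e1⟩⟩ := PP_mv hMV (m + 2)
    refine ⟨?_, fun i hi hi1 => ?_⟩
    · obtain ⟨e'⟩ := h1 (m + 1) (Nat.succ_ne_zero m)
      exact ⟨e'.trans e⟩
    · obtain ⟨j, rfl⟩ := Nat.exists_eq_succ_of_ne_zero hi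
      by_cases hj : j = 0
      · subst hj
        have := PP_pathConnected m
        have hb := Hm_zero_bijective (PP (m + 2)) Unit (cst (PP (m + 2)))
        have hs : Subsingleton (Hm 0 (cst (PP (m + 2)))).ker := by
          constructor
          rintro ⟨x, hx⟩ ⟨y, hy⟩
          refine Subtype.ext (hb.1 ?_)
          rw [AddMonoidHom.mem_ker] at hx hy
          change Hm 0 (cst (PP (m + 2))) x = Hm 0 (cst (PP (m + 2))) y
          rw [hx, hy]
        exact e1.toEquiv.subsingleton
      · obtain ⟨e'⟩ := h1 j hj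
        have := h0 j hj (by omega)
        exact e'.toEquiv.subsingleton

/-- the circle is the one dimensional sphere -/
def circleHomeo : Circle ≃ₜ Sn 1 where
  toFun z := ⟨Complex.orthonormalBasisOneI.repr z, by
    rw [mem_sphere_zero_iff_norm, LinearIsometryEquiv.norm_map]; exact Circle.norm_coe z⟩
  invFun x := ⟨Complex.orthonormalBasisOneI.repr.symm x.1, by
    refine mem_sphere_zero_iff_norm.2 ?_
    rw [LinearIsometryEquiv.norm_map]; exact mem_sphere_zero_iff_norm.1 x.2⟩
  left_inv z := by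
    apply Subtype.ext
    exact LinearIsometryEquiv.symm_apply_apply _ _
  right_inv x := by
    apply Subtype.ext
    exact LinearIsometryEquiv.apply_symm_apply _ _
  continuous_toFun := by
    refine Continuous.subtype_mk ?_ _
    exact (LinearIsometryEquiv.continuous _).comp (by fun_prop)
  continuous_invFun := by
    refine Continuous.subtype_mk ?_ _
    exact (LinearIsometryEquiv.continuous _).comp (by fun_prop)

/-- module SPH -/
theorem sph (hMV : MVStatement) : SphStatement where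
  top n hn := by
    obtain ⟨m, rfl⟩ := Nat.exists_eq_succ_of_ne_zero hn
    obtain ⟨⟨e⟩, -⟩ := PP_homology hMV m
    exact ⟨(HHequiv (m + 1) (sphEquiv (m + 1))).trans e⟩
  zero n i hn hi hin := by
    obtain ⟨m, rfl⟩ := Nat.exists_eq_succ_of_ne_zero hn
    have := (PP_homology hMV m).2 i hi hin
    exact (HHequiv i (sphEquiv (m + 1))).toEquiv.subsingleton
  pathConnected n hn := by
    have h : IsPathConnected (Metric.sphere (0 : Eu (n + 1)) 1) := by
      refine isPathConnected_sphere ?_ _ zero_le_one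
      rw [← Module.finrank_eq_rank, finrank_euclideanSpace_fin]
      exact_mod_cast (by omega : 1 < n + 1)
    exact isPathConnected_iff_pathConnectedSpace.1 h
  circle := by
    obtain ⟨⟨e⟩, -⟩ := PP_homology hMV 0
    exact ⟨((HHequiv 1 circleHomeo.toHomotopyEquiv).trans (HHequiv 1 (sphEquiv 1))).trans e⟩
  circle_zero i hi := by
    have := (PP_homology hMV 0).2 i (by omega) (by omega)
    exact ((HHequiv i circleHomeo.toHomotopyEquiv).trans
      (HHequiv i (sphEquiv 1))).toEquiv.subsingleton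

end Pool.Agent.S1S3.H53
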